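import Pool.Agent.Lib.MP_b5021c_nt.IfaceL1

/-!
# Board b5, row JVN: numerical induction step, class `V`
-/

set_option autoImplicit false

namespace Pool.Agent.B5.H32

theorem sum_le_prod {m : ℕ} (x : Fin m → ℝ) (hx : ∀ i, 1 ≤ x i) (s : Finset (Fin m)) :
    1 ≤ ∏ i ∈ s, x i ∧ ∑ i ∈ s, (x i - 1) ≤ ∏ i ∈ s, x i - 1 := by
  classical
  induction s using Finset.induction_on with
  | empty => simp
  | insert a s ha ih =>
    obtain ⟨h1, h2⟩ := ih
    rw [Finset.prod_insert ha, Finset.sum_insert ha]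
    have h3 := hx a
    constructor
    · nlinarith
    · nlinarith [mul_nonneg (sub_nonneg.2 h3) (sub_nonneg.2 h1)]

theorem sqrt3_gt : (1.7 : ℝ) ≤ Real.sqrt 3 := by
  rw [show (1.7 : ℝ) = Real.sqrt (1.7 ^ 2) by rw [Real.sqrt_sq]; norm_num]
  exact Real.sqrt_le_sqrt (by norm_num)

theorem bVL_eq {x : ℝ} (hx : Real.sqrt 3 ≤ x) : bVL x = 24 * (x - 1) := by
  unfold bVL
  apply max_eq_right
  have := sqrt3_gt
  linarith

theorem jvn : JVNS := by
  intro N m N' l hN hN' hl
  have h3 := sqrt3_gt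
  have hx : ∀ i, 1 ≤ N' i := fun i => by linarith [hN' i]
  obtain ⟨hP1, hP2⟩ := sum_le_prod N' hx Finset.univ
  set P : ℝ := ∏ i, N' i with hP
  have hsum : ∑ i, bVL (N' i) ≤ 24 * (P - 1) := by
    have h1 : ∑ i, bVL (N' i) = 24 * ∑ i, (N' i - 1) := by
      rw [Finset.mul_sum]
      exact Finset.sum_congr rfl fun i _ => bVL_eq (hN' i)
    rw [h1]
    linarith
  rw [bVL_eq hN]
  have hl0 : (0 : ℝ) ≤ l := Nat.cast_nonneg l
  constructor
  · intro h
    have h4 : (l : ℝ) ≤ 2 + 2 * (N - P) := by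
      by_contra h5
      push Not at h5
      nlinarith
    linarith
  · intro h
    have h4 : (l : ℝ) ≤ 23 * N - 24 * P - 3 := by
      by_contra h5
      push Not at h5
      have h6 : (23 * N - 24 * P - 3) * P < 2 * N := by
        calc (23 * N - 24 * P - 3) * P < l * P := by
              apply mul_lt_mul_of_pos_right h5; linarith
          _ ≤ 2 * N := hl
      nlinarith [mul_nonneg (sub_nonneg.2 hP1) (sub_nonneg.2 h), mul_nonneg (sub_nonneg.2 hP1) (by linarith : 0 ≤ N - 1.7)]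
    linarith

end Pool.Agent.B5.H32
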